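import Pool.Agent.Helper12.LD.P_Tok
import Pool.Agent.Helper2.LD.St5

/-!
# LD project, module Glue2: no gluing along an edge
-/

set_option autoImplicit false

namespace Pool.Agent.Helper12.LD

open Pool.Agent.Helper2.LD

section core

variable {V Q Λ B FB : Type}

private theorem g2_edist {N e : ℕ} {c : Core V Q Λ B FB} (hc : CoreAx N e c) (u z : V) :
    c.G.edist u z = (c.G.dist u z : ℕ∞) :=
  ((hc.conn.preconnected u z).coe_dist_eq_edist).symm

private theorem g2_base {N e : ℕ} {c : Core V Q Λ B FB} (hc : CoreAx N e c) {u z z' : V}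
    (h1 : c.G.dist u z ≤ 2 * N) (h2 : c.G.dist u z' ≤ 2 * N + 2)
    (h : c.bs (c.lb z) = c.bs (c.lb z')) : z = z' := by
  refine hc.k5 z z' ?_ h
  have h3 : c.G.edist z z' ≤ c.G.edist z u + c.G.edist u z' := SimpleGraph.edist_triangle
  rw [SimpleGraph.edist_comm (u := z) (v := u), g2_edist hc u z, g2_edist hc u z'] at h3
  refine h3.trans ?_
  have h4 : c.G.dist u z + c.G.dist u z' ≤ 4 * N + 2 := by omega
  exact_mod_cast h4

private theorem g2_cw (c : Core V Q Λ B FB) (σ : Bool) (q : Q) :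
    cw c σ (cw c (!σ) q) = q := by
  cases σ <;> simp [cw]

private theorem g2_fa (c : Core V Q Λ B FB) (σ : Bool) (q : Q) (j : ℕ) :
    fa c σ (cw c (!σ) q) (j + 1) = fa c σ q j := by
  unfold fa
  rw [Function.iterate_succ_apply, g2_cw]

private theorem g2_fa1 (c : Core V Q Λ B FB) (σ : Bool) (q : Q) (j : ℕ) :
    fa c σ ((cw c σ)^[j] q) 1 = fa c σ q (j + 1) := by
  unfold fa
  rw [Function.iterate_succ_apply' (cw c σ) j q]
  rfl

private theorem g2_fl {N e : ℕ} {c : Core V Q Λ B FB} (hc : CoreAx N e c) (σ : Bool) (q : Q)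
    (j : ℕ) : c.fl ((cw c σ)^[j] q) = c.fl q := by
  have h1 : ∀ q, c.fl (cw c σ q) = c.fl q := by
    intro q
    cases σ with
    | true => exact hc.flx q
    | false =>
      have h2 := hc.flx (c.nx.symm q)
      rw [Equiv.apply_symm_apply] at h2
      exact h2.symm
  induction j with
  | zero => rfl
  | succ j ih => rw [Function.iterate_succ_apply', h1, ih]

private theorem g2_lc {K : Type} (N : ℕ) (c : Core V Q Λ B FB) (u z : V) :
    lev N c u (GH.core z : GH V Q K) = c.G.dist u z := rfl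

private theorem g2_lg {K : Type} (N : ℕ) (c : Core V Q Λ B FB) (u : V) (q : Q) (j : ℕ) :
    lev N c u (GH.gho q j : GH V Q K) = c.G.dist u (c.ow q) + j := rfl

private theorem g2_glc (N e : ℕ) (c : Core V Q Λ B FB) (x : V) :
    gl N e c (.core x) = {Kd.kap (c.lb x)} := rfl

private theorem g2_glg (N e : ℕ) (c : Core V Q Λ B FB) (q : Q) (j : ℕ) (hj : j ≠ e)
    (κ : Kd N Λ B FB) : κ ∈ gl N e c (.gho q j) ↔
      κ = Kd.gam (c.bs (c.lb (c.ow q))) (c.fl q) ∨ κ = piK N j := by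
  unfold gl
  simp [hj]

private theorem g2_gle (N e : ℕ) (c : Core V Q Λ B FB) (q : Q)
    (κ : Kd N Λ B FB) : κ ∈ gl N e c (.gho q e) ↔
      κ = Kd.kap (c.lb (c.ow ((c.nx^[e]) q))) ∨ κ = Kd.kap (c.lb (c.ow ((c.nx^[3 * e]) q))) := by
  unfold gl
  simp

private theorem g2_glt (N e : ℕ) (c : Core V Q Λ B FB) (x : V) (j : ℕ)
    (κ : Kd N Λ B FB) : κ ∈ gl N e c (.tru x j) ↔ κ = Kd.del (c.lb x) ∨ κ = piK N j := by
  unfold gl
  simp

/-- `okT` of natural core hubs -/
private theorem g2_okc {N e : ℕ} {c : Core V Q Λ B FB} {s : Ch V Q} {u z : V}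
    (hu : s.rp u = u) (hz : c.G.dist u z ≤ 2 * N) : okT N e c s (.nat true u (.core z)) :=
  ⟨hu, trivial, Or.inl hz⟩

private theorem g2_okg {N e : ℕ} {c : Core V Q Λ B FB} {s : Ch V Q} {u : V} {q : Q} {j : ℕ}
    (hu : s.rp u = u) (h1 : 1 ≤ j) (hz : c.G.dist u (c.ow q) + j ≤ 2 * N) :
    okT N e c s (.nat true u (.gho q j)) :=
  ⟨hu, ⟨h1, by omega⟩, Or.inl hz⟩

private theorem g2_dist_le {N e : ℕ} {c : Core V Q Λ B FB} {s : Ch V Q} {u z : V}
    (h : okT N e c s (.nat true u (.core z))) : c.G.dist u z ≤ 2 * N := by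
  obtain ⟨-, -, h1 | h1⟩ := h
  · exact h1
  · exact absurd h1.1 (by decide)

end core

section main

variable {V Q Λ B FB W : Type} [Fintype Λ] [Fintype B] [Fintype FB]
  {N e : ℕ} {c : Core V Q Λ B FB} {s : Ch V Q} {M : SimpleGraph W}
  {lm : W → Finset (Kd N Λ B FB)}

omit [Fintype Λ] [Fintype B] [Fintype FB] in
private theorem g2_mono {t : TH V Q (Kd N Λ B FB)} (h : Rg N e c s (2 * N - 1) t) :
    Rg N e c s (2 * N) t := by
  obtain ⟨x, υ, h1, h2, h3⟩ := h
  refine ⟨x, υ, h1, h2, h3.trans ?_⟩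
  exact_mod_cast Nat.sub_le _ _

/-- argument (**) -/
private theorem g2_star (hRg : StRg) (hx : Cx N e c s M lm) {x y : TV N e c s} {g g2 : W}
    (h1 : Rg N e c s (2 * N) x.1) (h2 : Rg N e c s (2 * N - 1) y.1) (h3 : (TG N e c s).Adj x y)
    (h4 : Pt N e c s M lm x.1 g) (h5 : Pt N e c s M lm y.1 g2) : M.Adj g g2 := by
  obtain ⟨g3, h6, h7⟩ := (hRg.nbr N e c s M lm hx y.1 g2 h2 h5).1 y x rfl h3.symm
  obtain ⟨g0, -, h8⟩ := hRg.uniq N e c s M lm hx x.1 h1
  rw [h8 g h4, ← h8 g3 h6]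
  exact h7.symm

/-- hubs which are seen nearby and have a label of kind `kap` or `gam` are natural -/
private theorem g2_nat (hSee : StTsee) (hD : StTdist) (hx : Cx N e c s M lm)
    {x y : TV N e c s} {u : V} {h : GH V Q (Kd N Λ B FB)} (h1 : x.1 = .nat true u h) {d : ℕ}
    (h2 : (TG N e c s).edist x y = (d : ℕ∞)) (h3 : d + lev N c u h ≤ 2 * N)
    {κ : Kd N Λ B FB} (hk : (∃ a, κ = Kd.kap a) ∨ ∃ b f, κ = Kd.gam b f)
    (h4 : κ ∈ tL N e c s y) : ∃ h', y.1 = .nat true u h' ∧ κ ∈ gl N e c h' := by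
  have h5 : pc x.1 = some (true, u) := by rw [h1]; rfl
  have h6 : (TG N e c s).edist x y ≤ ((2 * N : ℕ) : ℕ∞) := by
    rw [h2]
    exact_mod_cast (by omega : d ≤ 2 * N)
  have h7 := hD.near N e c s hx.par hx.ax hx.ch x y true u h5 h6
  have h4' : κ ∈ tl N e c s y.1 := h4
  obtain ⟨y, hy⟩ := y
  rcases h7 with h7 | ⟨j, h7⟩
  · cases y with
    | nat b' u' h' =>
      have h8 : (some (b', u') : Option (Bool × V)) = some (true, u) := h7
      simp only [Option.some.injEq, Prod.mk.injEq] at h8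
      obtain ⟨rfl, rfl⟩ := h8
      exact ⟨h', rfl, h4'⟩
    | cap b' u' h' =>
      exfalso
      have h9 := hSee.cap N e c s hx.par hx.ax hx.ch x ⟨_, hy⟩ true u h b' u' h' h1 rfl
      rw [h2] at h9
      have h10 : dep N true + 1 ≤ d + lev N c u h := by exact_mod_cast h9
      have h11 : dep N true = 2 * N := rfl
      omega
    | pth b' u' j' =>
      have h8 : (none : Option (Bool × V)) = some (true, u) := h7
      simp at h8
    | rt =>
      have h8 : (none : Option (Bool × V)) = some (true, u) := h7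
      simp at h8
  · exfalso
    have h8 : y = .pth true u j := h7
    subst h8
    rcases hk with ⟨a, rfl⟩ | ⟨b, f, rfl⟩ <;>
    · unfold tl at h4'
      simp [piK, tyl] at h4'

/-- what a hub of a piece `true` sees -/
private theorem g2_see (hSee : StTsee) (hx : Cx N e c s M lm) {u : V}
    {h : GH V Q (Kd N Λ B FB)} {g g2 : W} (hP : Pt N e c s M lm (.nat true u h) g)
    (ht : ∀ j, h ≠ .tru u j) (hf : ∀ l, h ≠ .fan u l) {d : ℕ} (h1 : M.edist g g2 ≤ (d : ℕ∞))
    (h2 : d ≤ 2 * N) (h3 : 1 ≤ lev N c u h) {a : Λ} (h4 : lm g2 = {Kd.kap a}) :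
    ∃ (z : V) (hz : okT N e c s (.nat true u (.core z))), c.lb z = a ∧
      ∃ hh : okT N e c s (.nat true u h),
        (TG N e c s).edist ⟨_, hh⟩ ⟨_, hz⟩ = M.edist g g2 := by
  obtain ⟨hh, hdr⟩ := hP
  obtain ⟨t, p1, p2, p3, p4⟩ := hdr.2.2 g2
  have hne : M.edist g g2 ≠ ⊤ := ne_top_of_le_ne_top (ENat.natCast_ne_top d) h1
  obtain ⟨d', hd'⟩ := ENat.ne_top_iff_exists.1 hne
  have hdd : d' ≤ d := by
    rw [← hd'] at h1
    exact_mod_cast h1
  have h5 : (TG N e c s).edist ⟨_, hh⟩ t = (d' : ℕ∞) := (p3 d' (by omega)).2 hd'.symm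
  obtain ⟨z, h6, h7⟩ := hSee.core N e c s hx.par hx.ax hx.ch ⟨_, hh⟩ t true u h a d' rfl ht hf h5
    (by omega) (by omega) (by rw [p1, h4])
  obtain ⟨t, ht'⟩ := t
  have h6' : t = .nat true u (.core z) := h6
  subst h6'
  exact ⟨z, ht', h7, hh, by rw [h5, hd']⟩

/-- hubs which are seen nearby: classification -/
private theorem g2_cls (hSee : StTsee) (hD : StTdist) (hx : Cx N e c s M lm)
    {x y : TV N e c s} {u : V} {h : GH V Q (Kd N Λ B FB)} (h1 : x.1 = .nat true u h)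
    (ht : ∀ j, h ≠ .tru u j) (hf : ∀ l, h ≠ .fan u l) (h0 : 1 ≤ lev N c u h) {d : ℕ}
    (h2 : (TG N e c s).edist x y = (d : ℕ∞)) (h3 : d + lev N c u h ≤ 2 * N)
    {κ : Kd N Λ B FB} (hk : (∃ a, κ = Kd.kap a) ∨ ∃ b f, κ = Kd.gam b f)
    (h4 : κ ∈ tL N e c s y) :
    (∃ z, y.1 = .nat true u (.core z) ∧ κ = Kd.kap (c.lb z)) ∨
    (∃ q, y.1 = .nat true u (.gho q e) ∧ ∃ a, κ = Kd.kap a) ∨
    (∃ q j, j ≠ e ∧ y.1 = .nat true u (.gho q j) ∧
      κ = Kd.gam (c.bs (c.lb (c.ow q))) (c.fl q)) := by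
  obtain ⟨h', h5, h6⟩ := g2_nat hSee hD hx h1 h2 h3 hk h4
  cases h' with
  | core z =>
    left
    rw [g2_glc, Finset.mem_singleton] at h6
    exact ⟨z, h5, h6⟩
  | gho q j =>
    right
    by_cases hj : j = e
    · subst hj
      left
      rw [g2_gle] at h6
      rcases h6 with h6 | h6
      · exact ⟨q, h5, _, h6⟩
      · exact ⟨q, h5, _, h6⟩
    · right
      rw [g2_glg N e c q j hj] at h6
      rcases h6 with h6 | h6
      · exact ⟨q, j, hj, h5, h6⟩
      · exfalso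
        rcases hk with ⟨a, rfl⟩ | ⟨b, f, rfl⟩ <;> simp [piK] at h6
  | tru z j =>
    exfalso
    rw [g2_glt] at h6
    rcases hk with ⟨a, rfl⟩ | ⟨b, f, rfl⟩ <;> simp [piK] at h6
  | fan z l =>
    exfalso
    have h7 : okT N e c s (.nat true u (.fan z l)) := by
      rw [← h5]
      exact y.2
    have h8 : c.G.dist u z + 2 * N ≤ 2 * N := by
      obtain ⟨-, -, h1 | h1⟩ := h7
      · exact h1
      · exact absurd h1.1 (by decide)
    have h9 : u = z := by
      rw [← hx.ax.conn.dist_eq_zero_iff]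
      omega
    subst h9
    have h10 := hSee.fan N e c s hx.par hx.ax hx.ch x y u h l h1 ht hf h5
    rw [h2] at h10
    have h11 : d = 2 * N + lev N c u h := by exact_mod_cast h10
    omega

end main

section ghosts

variable {V Q Λ B FB : Type} {N e : ℕ} {c : Core V Q Λ B FB} {s : Ch V Q}

private theorem g2_tpg {K : Type} (b : Bool) (u : V) (q : Q) (j : ℕ) :
    tpar N e c s (.nat b u (.gho q j) : TH V Q K) =
      .nat b u (if j ≤ 1 then .core (c.ow q) else .gho q (j - 1)) := rfl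

private theorem g2_it {K : Type} (b : Bool) (u : V) (q : Q) (m j : ℕ) (hj : j < m) :
    (tpar N e c s)^[j] (.nat b u (.gho q m) : TH V Q K) = .nat b u (.gho q (m - j)) := by
  induction j with
  | zero => rfl
  | succ j ih =>
    rw [Function.iterate_succ_apply', ih (by omega), g2_tpg, if_neg (by omega)]
    have : m - j - 1 = m - (j + 1) := by omega
    rw [this]

private theorem g2_it' {K : Type} (b : Bool) (u : V) (q : Q) (m : ℕ) (hm : 1 ≤ m) :
    (tpar N e c s)^[m] (.nat b u (.gho q m) : TH V Q K) = .nat b u (.core (c.ow q)) := by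
  obtain ⟨k, rfl⟩ : ∃ k, m = k + 1 := ⟨m - 1, by omega⟩
  rw [Function.iterate_succ_apply', g2_it b u q (k + 1) k (by omega), g2_tpg, if_pos (by omega)]

private theorem g2_gdist (hD : StTdist) (hp : Par N e) (hc : CoreAx N e c) (hs : ChAx N c s)
    {u w : V} {q : Q} (hw : c.ow q = w) (huw : c.G.dist u w = 1) {j : ℕ} (hj : 1 ≤ j)
    (x y : TV N e c s) (hx : x.1 = .nat true u (.core w)) (hy : y.1 = .nat true u (.gho q j)) :
    (TG N e c s).edist x y = (j : ℕ∞) := by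
  have hru : s.rp u = u := by
    have := x.2
    rw [hx] at this
    exact this.1
  have hlx : tlev N c x.1 = 1 := by rw [hx]; exact huw
  have hly : tlev N c y.1 = 1 + j := by
    rw [hy]
    show c.G.dist u (c.ow q) + j = 1 + j
    rw [hw, huw]
  have h1 : (TG N e c s).edist x y ≤ (j : ℕ∞) := by
    rw [hD.inn N e c s hp hc hs x y (by rw [hx, hy]; rfl) j]
    refine ⟨0, j, Nat.zero_le _, by omega, by omega, ?_⟩
    rw [hy, g2_it' true u q j hj, hw]
    exact hx
  have hr : okT N e c s (.nat true u (.core u)) :=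
    g2_okc hru (by rw [SimpleGraph.dist_self]; exact Nat.zero_le _)
  have h2 := hD.root N e c s hp hc hs ⟨_, hr⟩ y true u rfl (by rw [hy]; rfl)
  have h3 := hD.root N e c s hp hc hs ⟨_, hr⟩ x true u rfl (by rw [hx]; rfl)
  have h4 : (TG N e c s).edist ⟨_, hr⟩ y ≤ (TG N e c s).edist ⟨_, hr⟩ x +
    (TG N e c s).edist x y := SimpleGraph.edist_triangle
  obtain ⟨d, hd⟩ := ENat.ne_top_iff_exists.1 (ne_top_of_le_ne_top (ENat.natCast_ne_top j) h1)
  rw [h2, h3, hlx, hly, ← hd] at h4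
  rw [← hd] at h1 ⊢
  have h5 : d ≤ j := by exact_mod_cast h1
  have h6 : 1 + j ≤ 1 + d := by exact_mod_cast h4
  have h7 : d = j := by omega
  rw [h7]

private theorem g2_ow (hD : StTdist) (hp : Par N e) (hc : CoreAx N e c) (hs : ChAx N c s)
    {u w : V} {q : Q} (hpb : pb (K := Kd N Λ B FB) N e c s true u (.core w) = .core u)
    (huw : c.G.dist u w = 1) {j : ℕ} (hj : 1 ≤ j)
    (x y : TV N e c s) (hx : x.1 = .nat true u (.core w)) (hy : y.1 = .nat true u (.gho q j))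
    (h : (TG N e c s).edist x y = (j : ℕ∞)) : c.ow q = w := by
  have hlx : tlev N c x.1 = 1 := by rw [hx]; exact huw
  obtain ⟨i, k, h1, h2, h3, h4⟩ := (hD.inn N e c s hp hc hs x y (by rw [hx, hy]; rfl) j).1 h.le
  rw [hlx] at h1
  rw [hx, hy] at h4
  by_cases hk : k < j
  · exfalso
    rw [g2_it true u q j k hk] at h4
    have hi : i = 0 ∨ i = 1 := by omega
    rcases hi with rfl | rfl
    · simp at h4
    · have h5 : tpar N e c s (.nat true u (.core w) : TH V Q (Kd N Λ B FB)) =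
        .nat true u (pb N e c s true u (.core w)) := rfl
      rw [Function.iterate_one, h5, hpb] at h4
      simp at h4
  · have hk' : k = j := by omega
    have hi : i = 0 := by omega
    subst hk' hi
    rw [g2_it' true u q k hj] at h4
    simp at h4
    exact h4.symm

end ghosts

section faces

variable {V Q Λ B FB : Type} {N e : ℕ} {c : Core V Q Λ B FB}

/-- matched faces -/
private theorem g2_bs (hF : StFace) (hp : Par N e) (hc : CoreAx N e c) {σ : Bool} {q q' : Q}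
    (hfl : c.fl q' = c.fl q) {j : ℕ} (hl : c.lb (fa c σ q' j) = c.lb (fa c σ q j)) :
    c.bs (c.lb (fa c σ q' (j + 1))) = c.bs (c.lb (fa c σ q (j + 1))) := by
  obtain ⟨r, h1, h2, h3, -⟩ := hF.follow N e c hp hc σ ((cw c σ)^[j] q) (fa c σ q' j) hl.symm
  have h4 : r = (cw c σ)^[j] q' := hc.k8 _ _ h1 (by rw [h2, g2_fl hc, g2_fl hc, hfl])
  rw [h4, g2_fa1, g2_fa1] at h3
  exact h3

end faces

section chains

variable {V Q Λ B FB W : Type} [Fintype Λ] [Fintype B] [Fintype FB]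
  {N e : ℕ} {c : Core V Q Λ B FB} {s : Ch V Q} {M : SimpleGraph W}
  {lm : W → Finset (Kd N Λ B FB)}

/-- labels of partners -/
private theorem g2_lab {t : TH V Q (Kd N Λ B FB)} {g : W} (h : Pt N e c s M lm t g) :
    lm g = tl N e c s t := by
  obtain ⟨h1, h2⟩ := h
  exact h2.1.symm

/-- the chain of partners along the face -/
private theorem g2_chain (hRg : StRg) (hSee : StTsee) (hM : StMinj) (hCls : StCls)
    (hF : StFace) (hx : Cx N e c s M lm) {u w u' w' : V} {g g' : W} {σ : Bool} {q q' : Q}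
    (huw : c.G.Adj u w) (huw' : c.G.Adj u' w')
    (hPw : Pt N e c s M lm (.nat true u (.core w)) g)
    (hPw' : Pt N e c s M lm (.nat true u' (.core w')) g') (hgg : M.Adj g g')
    (hl1 : c.lb w' = c.lb u) (hq : c.ow q = u) (hq' : c.ow q' = w') (hfl : c.fl q' = c.fl q)
    (hq2 : c.ow (cw c (!σ) q') = u') (j : ℕ) (hj : j ≤ 2 * e - 2) :
    c.lb (fa c σ q' j) = c.lb (fa c σ q j) ∧
      ∃ β, Pt N e c s M lm (.nat true u' (.core (fa c σ q' j))) β ∧
        M.edist g β ≤ ((j + 1 : ℕ) : ℕ∞) := by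
  have hp := hx.par
  have hc := hx.ax
  have hs := hx.ch
  have hru' : s.rp u' = u' := hPw'.1.1
  have he : 20 ≤ e := hp.2
  have hN : e + 4 = N := hp.1
  have hda : ∀ j ≤ 2 * e, c.G.dist u (fa c σ q j) = j := by
    have := (hF.dist N e c hp hc q σ).1
    rwa [hq] at this
  have hdb : ∀ j, j + 1 ≤ 2 * e → c.G.dist u' (fa c σ q' j) = j + 1 := by
    intro j hj
    have := (hF.dist N e c hp hc (cw c (!σ) q') σ).1 (j + 1) hj
    rwa [hq2, g2_fa] at this
  have hduw : c.G.dist u w = 1 := SimpleGraph.dist_eq_one_iff_adj.2 huw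
  induction j with
  | zero =>
    have e1 : fa c σ q' 0 = w' := hq'
    have e2 : fa c σ q 0 = u := hq
    rw [e1, e2]
    refine ⟨hl1, g', hPw', ?_⟩
    rw [SimpleGraph.edist_eq_one_iff_adj.2 hgg]
    norm_num
  | succ j ih =>
    obtain ⟨ih1, β, ih2, ih3⟩ := ih (by omega)
    have hbs := g2_bs hF hp hc hfl ih1
    have hok0 : okT N e c s (.nat true u' (.core (fa c σ q' j))) := ih2.1
    have hok1 : okT N e c s (.nat true u' (.core (fa c σ q' (j + 1)))) :=
      g2_okc hru' (by rw [hdb _ (by omega)]; omega)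
    obtain ⟨β', hβ'⟩ := (hM.ex N e c s M lm hx).2 _ hok1
    have hR1 : Rg N e c s (2 * N - 1) (.nat true u' (.core (fa c σ q' (j + 1)))) := by
      refine hCls.strong N e c s hp hc hs true u' _ hok1 (Or.inl ⟨rfl, ?_, ?_, ?_⟩)
      · rw [g2_lc, hdb _ (by omega)]
        omega
      · intro j h
        cases h
      · intro l h
        cases h
    have hR0 : Rg N e c s (2 * N) (.nat true u' (.core (fa c σ q' j))) := by
      rcases Nat.eq_zero_or_pos j with rfl | hj0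
      · refine (hCls.rg N e c s hp hc hs _ hok0 (Or.inl ⟨u', w', huw', ?_⟩)).1
        have e1 : fa c σ q' 0 = w' := hq'
        rw [e1]
      · refine g2_mono (hCls.strong N e c s hp hc hs true u' _ hok0 (Or.inl ⟨rfl, ?_, ?_, ?_⟩))
        · rw [g2_lc, hdb _ (by omega)]
          omega
        · intro j h
          cases h
        · intro l h
          cases h
    have hTadj : (TG N e c s).Adj ⟨_, hok0⟩ ⟨_, hok1⟩ := by
      refine (pTok.adj N e c s hp hc hs _ _).2 (Or.inr (Or.inl ⟨?_, ?_⟩))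
      · show c.G.dist u' (fa c σ q' (j + 1)) ≠ 0
        rw [hdb _ (by omega)]
        omega
      · have h1 := hF.par (K := Kd N Λ B FB) N e c s hp hc hs true (cw c (!σ) q') σ (j + 2)
          (by omega) (by omega)
        have h2 : j + 2 - 1 = j + 1 := by omega
        rw [hq2, h2, g2_fa, g2_fa] at h1
        show (.nat true u' (.core (fa c σ q' j)) : TH V Q (Kd N Λ B FB)) =
          .nat true u' (pb N e c s true u' (.core (fa c σ q' (j + 1))))
        rw [h1]
    have hadj : M.Adj β β' := g2_star hRg hx hR0 hR1 hTadj ih2 hβ'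
    have hdist : M.edist g β' ≤ ((j + 1 + 1 : ℕ) : ℕ∞) := by
      have h1 : M.edist g β' ≤ M.edist g β + M.edist β β' := SimpleGraph.edist_triangle
      rw [SimpleGraph.edist_eq_one_iff_adj.2 hadj] at h1
      refine h1.trans ((add_le_add_left ih3 1).trans ?_)
      norm_num
    have hlm : lm β' = {Kd.kap (c.lb (fa c σ q' (j + 1)))} := by
      rw [g2_lab hβ']
      rfl
    obtain ⟨z, hz, hlz, -, -⟩ := g2_see hSee hx hPw (fun _ h => by cases h) (fun _ h => by cases h)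
      hdist (by omega) (by rw [g2_lc, hduw]) hlm
    have hz' : z = fa c σ q (j + 1) :=
      g2_base hc (g2_dist_le hz) (by rw [hda _ (by omega)]; omega) (by rw [hlz]; exact hbs)
    refine ⟨?_, β', hβ', hdist⟩
    rw [← hz', hlz]

/-- the chain of partners along a ghost at `w` -/
private theorem g2_gchain (hRg : StRg) (hM : StMinj) (hCls : StCls)
    (hx : Cx N e c s M lm) {u w : V} {g : W} {q : Q} (huw : c.G.Adj u w) (hq : c.ow q = w)
    (hPw : Pt N e c s M lm (.nat true u (.core w)) g) (j : ℕ) (hj1 : 1 ≤ j) :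
    j ≤ e → ∃ γ, Pt N e c s M lm (.nat true u (.gho q j)) γ ∧ M.edist g γ ≤ (j : ℕ∞) := by
  have hp := hx.par
  have hc := hx.ax
  have hs := hx.ch
  have hru : s.rp u = u := hPw.1.1
  have he : 20 ≤ e := hp.2
  have hN : e + 4 = N := hp.1
  have hduw : c.G.dist u (c.ow q) = 1 := by rw [hq]; exact SimpleGraph.dist_eq_one_iff_adj.2 huw
  have hok : ∀ j, 1 ≤ j → j ≤ e → okT N e c s (.nat true u (.gho q j)) := fun j h1 h2 =>
    g2_okg hru h1 (by rw [hduw]; omega)
  have hR : ∀ j (h1 : 1 ≤ j) (h2 : j ≤ e), Rg N e c s (2 * N - 1) (.nat true u (.gho q j)) := by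
    intro j h1 h2
    refine hCls.strong N e c s hp hc hs true u _ (hok j h1 h2) (Or.inl ⟨rfl, ?_, ?_, ?_⟩)
    · rw [g2_lg, hduw]
      omega
    · intro j h
      cases h
    · intro l h
      cases h
  induction j, hj1 using Nat.le_induction with
  | base =>
    intro hj
    obtain ⟨γ, hγ⟩ := (hM.ex N e c s M lm hx).2 _ (hok 1 le_rfl hj)
    have hTadj : (TG N e c s).Adj ⟨_, hPw.1⟩ ⟨_, hok 1 le_rfl hj⟩ := by
      refine (pTok.adj N e c s hp hc hs _ _).2 (Or.inr (Or.inl ⟨?_, ?_⟩))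
      · show c.G.dist u (c.ow q) + 1 ≠ 0
        omega
      · show (.nat true u (.core w) : TH V Q (Kd N Λ B FB)) = tpar N e c s (.nat true u (.gho q 1))
        rw [g2_tpg, if_pos le_rfl, hq]
    have hadj := g2_star hRg hx
      (hCls.rg N e c s hp hc hs _ hPw.1 (Or.inl ⟨u, w, huw, rfl⟩)).1
      (hR 1 le_rfl hj) hTadj hPw hγ
    refine ⟨γ, hγ, ?_⟩
    rw [SimpleGraph.edist_eq_one_iff_adj.2 hadj]
    norm_num
  | succ j hj ih =>
    intro hj2
    obtain ⟨γ, h1, h2⟩ := ih (by omega)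
    obtain ⟨γ', hγ'⟩ := (hM.ex N e c s M lm hx).2 _ (hok (j + 1) (by omega) hj2)
    have hTadj : (TG N e c s).Adj ⟨_, hok j hj (by omega)⟩ ⟨_, hok (j + 1) (by omega) hj2⟩ := by
      refine (pTok.adj N e c s hp hc hs _ _).2 (Or.inr (Or.inl ⟨?_, ?_⟩))
      · show c.G.dist u (c.ow q) + (j + 1) ≠ 0
        omega
      · show (.nat true u (.gho q j) : TH V Q (Kd N Λ B FB)) =
          tpar N e c s (.nat true u (.gho q (j + 1)))
        rw [g2_tpg, if_neg (by omega)]
        rfl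
    have hadj := g2_star hRg hx (g2_mono (hR j hj (by omega))) (hR (j + 1) (by omega) hj2) hTadj
      h1 hγ'
    refine ⟨γ', hγ', ?_⟩
    have h3 : M.edist g γ' ≤ M.edist g γ + M.edist γ γ' := SimpleGraph.edist_triangle
    rw [SimpleGraph.edist_eq_one_iff_adj.2 hadj] at h3
    refine h3.trans ((add_le_add_left h2 1).trans ?_)
    norm_num

end chains

section final

variable {V Q Λ B FB W : Type} [Fintype Λ] [Fintype B] [Fintype FB]
  {N e : ℕ} {c : Core V Q Λ B FB} {s : Ch V Q} {M : SimpleGraph W}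
  {lm : W → Finset (Kd N Λ B FB)}

/-- the middle vertex is a core vertex -/
private theorem g2_caseA (hRg : StRg) (hSee : StTsee) (hM : StMinj) (hCls : StCls)
    (hF : StFace) (hx : Cx N e c s M lm) {u w u' w' : V} {g g' : W} {σ : Bool} {q q' : Q}
    (huw : c.G.Adj u w) (huw' : c.G.Adj u' w')
    (hPw : Pt N e c s M lm (.nat true u (.core w)) g)
    (hPw' : Pt N e c s M lm (.nat true u' (.core w')) g') (hgg : M.Adj g g')
    (hl1 : c.lb w' = c.lb u) (hq : c.ow q = u) (hq' : c.ow q' = w') (hfl : c.fl q' = c.fl q)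
    (hq2 : c.ow (cw c (!σ) q') = u') {z t : W} (hgz : M.edist g z = (e : ℕ∞))
    (hzt : M.edist z t = (e : ℕ∞)) (hlz : lm z = {Kd.kap (c.lb (fa c σ q (e - 1)))})
    (hlt : lm t = {Kd.kap (c.lb (fa c σ q (2 * e - 1)))}) : False := by
  have hp := hx.par
  have hc := hx.ax
  have hs := hx.ch
  have hru' : s.rp u' = u' := hPw'.1.1
  have he : 20 ≤ e := hp.2
  have hN : e + 4 = N := hp.1
  have hdb : ∀ j, j + 1 ≤ 2 * e → c.G.dist u' (fa c σ q' j) = j + 1 := by
    intro j hj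
    have := (hF.dist N e c hp hc (cw c (!σ) q') σ).1 (j + 1) hj
    rwa [hq2, g2_fa] at this
  have hch := fun j hj => g2_chain hRg hSee hM hCls hF hx huw huw' hPw hPw' hgg hl1 hq hq' hfl hq2
    j hj
  obtain ⟨h1, β, hβ, hgβ⟩ := hch (e - 1) (by omega)
  have e1 : e - 1 + 1 = e := by omega
  rw [e1] at hgβ
  have hlβ : lm β = {Kd.kap (c.lb (fa c σ q' (e - 1)))} := by
    rw [g2_lab hβ]
    rfl
  have hzβ : z = β := by
    by_contra hne
    have h2 := hM.sep N e c s M lm hx z β hne (by rw [hlz, hlβ, h1]) (Or.inl ⟨_, hlz⟩)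
    have h3 : M.edist z β ≤ M.edist z g + M.edist g β := SimpleGraph.edist_triangle
    rw [SimpleGraph.edist_comm (u := z) (v := g), hgz] at h3
    have h4 : ((2 * N : ℕ) : ℕ∞) ≤ ((e + e : ℕ) : ℕ∞) := by
      refine h2.trans (h3.trans ?_)
      rw [Nat.cast_add]
      exact add_le_add le_rfl hgβ
    have h5 : 2 * N ≤ e + e := by exact_mod_cast h4
    omega
  subst hzβ
  obtain ⟨z3, hz3, hlz3, hh, hd3⟩ := g2_see hSee hx hβ (fun _ h => by cases h)
    (fun _ h => by cases h) hzt.le (by omega) (by rw [g2_lc, hdb _ (by omega)]; omega) hlt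
  have hbs : c.bs (c.lb (fa c σ q' (2 * e - 1))) = c.bs (c.lb (fa c σ q (2 * e - 1))) := by
    have h2 := g2_bs hF hp hc hfl (hch (2 * e - 2) le_rfl).1
    have e2 : 2 * e - 2 + 1 = 2 * e - 1 := by omega
    rwa [e2] at h2
  have hz3' : z3 = fa c σ q' (2 * e - 1) := by
    refine g2_base hc (g2_dist_le hz3) (by rw [hdb _ (by omega)]; omega) ?_
    rw [hlz3, hbs]
  have hanti : fa c true (cw c (!σ) q') (2 * e) = fa c σ q' (2 * e - 1) := by
    have h2 : fa c σ (cw c (!σ) q') (2 * e) = fa c σ q' (2 * e - 1) := by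
      have e2 : 2 * e = 2 * e - 1 + 1 := by omega
      rw [e2, g2_fa]
      rfl
    cases σ with
    | true => exact h2
    | false =>
      have h3 := (hF.dist N e c hp hc (cw c (!false) q') false).2.1
      rw [← h2]
      exact h3.symm
  have h6 := hF.anti N e c s hp hc hs (cw c (!σ) q') σ e ⟨_, hh⟩ ⟨_, hz3⟩ (by
    rw [hq2]
    have e2 : fa c σ (cw c (!σ) q') e = fa c σ q' (e - 1) := by
      have e3 : e = e - 1 + 1 := by omega
      conv_lhs => rw [e3]
      rw [g2_fa]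
    rw [e2]) (by rw [hq2, hanti, ← hz3']) (by omega)
  rw [h6, hzt] at hd3
  have h7 : e + 2 * e = e := by exact_mod_cast hd3
  omega

/-- the middle vertex is a ghost -/
private theorem g2_caseB (hRg : StRg) (hSee : StTsee) (hM : StMinj) (hCls : StCls)
    (hF : StFace) (hD : StTdist) (hx : Cx N e c s M lm) {u w : V} {g : W} {σ : Bool} {q q3 : Q}
    (huw : c.G.Adj u w) (hq : c.ow q = u) (hw : fa c (!σ) q 1 = w)
    (hPw : Pt N e c s M lm (.nat true u (.core w)) g)
    {z t : W} {tz : TV N e c s}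
    (hPE : PairEq N e (TG N e c s) (tL N e c s) M lm ⟨_, hPw.1⟩ tz g z)
    (htz : tz.1 = .nat true u (.gho q3 e))
    (hgz : M.edist g z = (e : ℕ∞))
    (hzt : M.edist z t = (e : ℕ∞))
    (hlt : lm t = {Kd.kap (c.lb (fa c σ q (2 * e - 1)))}) : False := by
  have hp := hx.par
  have hc := hx.ax
  have hs := hx.ch
  have hru : s.rp u = u := hPw.1.1
  have he : 20 ≤ e := hp.2
  have hN : e + 4 = N := hp.1
  have hduw : c.G.dist u w = 1 := SimpleGraph.dist_eq_one_iff_adj.2 huw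
  have hTz : (TG N e c s).edist ⟨_, hPw.1⟩ tz = (e : ℕ∞) := (hPE.2.2.1 e (by omega)).2 hgz
  have hpb : pb (K := Kd N Λ B FB) N e c s true u (.core w) = .core u := by
    have h1 := hF.par (K := Kd N Λ B FB) N e c s hp hc hs true q (!σ) 1 le_rfl (by omega)
    rw [hq, hw] at h1
    rw [h1]
    have h2 : fa c (!σ) q (1 - 1) = u := hq
    rw [h2]
  have how : c.ow q3 = w := g2_ow hD hp hc hs hpb hduw (by omega) ⟨_, hPw.1⟩ tz rfl htz hTz
  have hdow : c.G.dist u (c.ow q3) = 1 := by rw [how, hduw]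
  have hok : ∀ j, 1 ≤ j → j ≤ e → okT N e c s (.nat true u (.gho q3 j)) := fun j h1 h2 =>
    g2_okg hru h1 (by rw [hdow]; omega)
  have hR : ∀ j (h1 : 1 ≤ j) (h2 : j ≤ e), Rg N e c s (2 * N - 1) (.nat true u (.gho q3 j)) := by
    intro j h1 h2
    refine hCls.strong N e c s hp hc hs true u _ (hok j h1 h2) (Or.inl ⟨rfl, ?_, ?_, ?_⟩)
    · rw [g2_lg, hdow]
      omega
    · intro j h
      cases h
    · intro l h
      cases h
  have hok1 := hok (e - 1) (by omega) (by omega)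
  have hoke := hok e (by omega) le_rfl
  obtain ⟨tz, htz0⟩ := tz
  have htz' : tz = .nat true u (.gho q3 e) := htz
  subst htz'
  -- the last but one point of the ghost
  have hTadj : (TG N e c s).Adj ⟨_, hok1⟩ ⟨_, hoke⟩ := by
    refine (pTok.adj N e c s hp hc hs _ _).2 (Or.inr (Or.inl ⟨?_, ?_⟩))
    · show c.G.dist u (c.ow q3) + e ≠ 0
      omega
    · show (.nat true u (.gho q3 (e - 1)) : TH V Q (Kd N Λ B FB)) =
        tpar N e c s (.nat true u (.gho q3 e))
      rw [g2_tpg, if_neg (by omega)]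
  have hT1 : (TG N e c s).edist ⟨_, hPw.1⟩ ⟨_, hok1⟩ = ((e - 1 : ℕ) : ℕ∞) :=
    g2_gdist hD hp hc hs how hduw (by omega) _ _ rfl rfl
  have hWin : Win e (TG N e c s) (tL N e c s) ⟨_, hPw.1⟩ ⟨_, htz0⟩ (e - 1)
      (Kd.gam (c.bs (c.lb (c.ow q3))) (c.fl q3)) := by
    refine ⟨1, by omega, by omega, ?_, ⟨_, hok1⟩, hT1, ?_, ?_⟩
    · rw [hTz]
      have : e - 1 + 1 = e := by omega
      rw [this]
    · rw [SimpleGraph.edist_eq_one_iff_adj.2 hTadj]
      norm_num
    · show _ ∈ gl N e c (.gho q3 (e - 1))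
      rw [g2_glg N e c q3 (e - 1) (by omega)]
      exact Or.inl rfl
  obtain ⟨q1, -, -, hE, z1, hz1, hz2, hz3⟩ := (hPE.2.2.2 _ _).1 hWin
  have hq1 : q1 = 1 := by
    rw [hgz] at hE
    have h1 : e = e - 1 + q1 := by exact_mod_cast hE
    omega
  subst hq1
  -- the hub seen at `z1`
  obtain ⟨t1, p1, p2, p3, p4⟩ := hPw.2.2.2 z1
  have ht1 : (TG N e c s).edist ⟨_, hPw.1⟩ t1 = ((e - 1 : ℕ) : ℕ∞) := (p3 (e - 1) (by omega)).2 hz1
  have hk1 : Kd.gam (c.bs (c.lb (c.ow q3))) (c.fl q3) ∈ tL N e c s t1 := by rw [p1]; exact hz3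
  have ht1' : t1.1 = .nat true u (.gho q3 (e - 1)) := by
    rcases g2_cls hSee hD hx (x := ⟨_, hPw.1⟩) rfl (fun _ h => by cases h) (fun _ h => by cases h)
      (by rw [g2_lc, hduw]) ht1 (by rw [g2_lc, hduw]; omega) (Or.inr ⟨_, _, rfl⟩) hk1 with
      ⟨z4, -, h1⟩ | ⟨q4, -, a, h1⟩ | ⟨q4, j4, hj4, h1, h2⟩
    · cases h1
    · cases h1
    · simp only [Kd.gam.injEq] at h2
      obtain ⟨h3, h4⟩ := h2
      have h5 : okT N e c s (.nat true u (.gho q4 j4)) := by
        rw [← h1]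
        exact t1.2
      have h6 : c.G.dist u (c.ow q4) + j4 ≤ 2 * N := by
        obtain ⟨-, -, h6 | h6⟩ := h5
        · exact h6
        · exact absurd h6.1 (by decide)
      have h7 : c.ow q4 = c.ow q3 := g2_base hc (u := u) (by omega) (by rw [hdow]; omega) h3.symm
      have h8 : q4 = q3 := hc.k8 _ _ h7 h4.symm
      subst h8
      have h9 : 1 ≤ j4 := h5.2.1.1
      have h10 := g2_gdist hD hp hc hs how hduw h9 ⟨_, hPw.1⟩ t1 rfl h1
      rw [ht1] at h10
      have h11 : e - 1 = j4 := by exact_mod_cast h10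
      rw [h1, ← h11]
  have hlz1 : lm z1 = gl N e c (.gho q3 (e - 1)) := by
    rw [← p1]
    show tl N e c s t1.1 = _
    rw [ht1']
    rfl
  -- partners of the ghost
  obtain ⟨γ, hγ, hgγ⟩ := g2_gchain hRg hM hCls hx huw how hPw (e - 1) (by omega) (by omega)
  obtain ⟨γ', hγ'⟩ := (hM.ex N e c s M lm hx).2 _ hoke
  have hadj : M.Adj γ γ' := g2_star hRg hx (g2_mono (hR (e - 1) (by omega) (by omega)))
    (hR e (by omega) le_rfl) hTadj hγ hγ'
  have hzγ : z1 = γ := by
    by_contra hne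
    have h2 := hM.sep N e c s M lm hx z1 γ hne (by rw [hlz1, g2_lab hγ]; rfl)
      (Or.inr (Or.inl ⟨_, _, _, fun κ => by rw [hlz1]; exact g2_glg N e c q3 (e - 1) (by omega) κ⟩))
    have h3 : M.edist z1 γ ≤ M.edist z1 g + M.edist g γ := SimpleGraph.edist_triangle
    rw [SimpleGraph.edist_comm (u := z1) (v := g), hz1] at h3
    have h4 : ((2 * N : ℕ) : ℕ∞) ≤ ((e - 1 + (e - 1) : ℕ) : ℕ∞) := by
      refine h2.trans (h3.trans ?_)
      rw [Nat.cast_add]
      exact add_le_add le_rfl hgγ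
    have h5 : 2 * N ≤ e - 1 + (e - 1) := by exact_mod_cast h4
    omega
  subst hzγ
  have hzγ' : z = γ' := by
    by_contra hne
    refine hM.two N e c s M lm hx z γ' hne ?_ ?_
    · have h3 : M.edist z γ' ≤ M.edist z z1 + M.edist z1 γ' := SimpleGraph.edist_triangle
      rw [SimpleGraph.edist_comm (u := z) (v := z1), hz2,
        SimpleGraph.edist_eq_one_iff_adj.2 hadj] at h3
      refine h3.trans ?_
      norm_num
    · rw [g2_lab hγ', ← hPE.1]
      rfl
  subst hzγ'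
  obtain ⟨z4, hz4, hlz4, hh, hd4⟩ := g2_see hSee hx hγ' (fun _ h => by cases h)
    (fun _ h => by cases h) hzt.le (by omega) (by rw [g2_lg, hdow]; omega) hlt
  have hda : c.G.dist u (fa c σ q (2 * e - 1)) = 2 * e - 1 := by
    have := (hF.dist N e c hp hc q σ).1 (2 * e - 1) (by omega)
    rwa [hq] at this
  have hz4' : z4 = fa c σ q (2 * e - 1) := by
    refine g2_base hc (g2_dist_le hz4) (by rw [hda]; omega) ?_
    rw [hlz4]
  have h6 := hF.gho' N e c s hp hc hs q q3 σ e (2 * e - 1) ⟨_, hh⟩ ⟨_, hz4⟩ (by rw [how, hw])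
    (by rw [hq]) (by rw [hq, ← hz4']) (by omega) (by omega) (by omega)
  rw [h6, hzt] at hd4
  have h7 : e + 1 + (2 * e - 1) = e := by exact_mod_cast hd4
  omega

end final

theorem pGlue2 (hRg : StRg) (hSee : StTsee) (hM : StMinj) (hCls : StCls) (hF : StFace)
    (hD : StTdist) : StGlue2 := by
  intro V Q Λ B FB W _ _ _ N e c s M lm hx u w u' w' g g' huw huw' hPw hPw' hgg hl1 hl2
  have hp := hx.par
  have hc := hx.ax
  have hs := hx.ch
  have he : 20 ≤ e := hp.2
  have hN : e + 4 = N := hp.1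
  have hduw : c.G.dist u w = 1 := SimpleGraph.dist_eq_one_iff_adj.2 huw
  have hru : s.rp u = u := hPw.1.1
  obtain ⟨q, hq, hσ⟩ := hc.k9 u w huw
  obtain ⟨σ, hw⟩ : ∃ σ, fa c (!σ) q 1 = w := by
    rcases hσ with h | h
    · exact ⟨false, h⟩
    · exact ⟨true, h⟩
  obtain ⟨q', h1, h2, -, h4⟩ := hF.follow N e c hp hc σ q w' (by rw [hq]; exact hl1.symm)
  have hu' : c.ow (cw c (!σ) q') = u' := by
    have a1 : c.G.Adj (fa c (!σ) q' 0) (fa c (!σ) q' 1) :=
      (hF.dist N e c hp hc q' (!σ)).2.2.2.2 0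
    have a2 : fa c (!σ) q' 0 = w' := h1
    rw [a2] at a1
    have a3 : fa c (!σ) q' 1 = c.ow (cw c (!σ) q') := rfl
    rw [a3] at a1 h4
    refine g2_base hc (u := w') ?_ ?_ ?_
    · rw [SimpleGraph.dist_eq_one_iff_adj.2 a1]
      omega
    · rw [SimpleGraph.dist_eq_one_iff_adj.2 huw'.symm]
      omega
    · rw [h4, hw, hl2]
  have hda : ∀ j ≤ 2 * e, c.G.dist u (fa c σ q j) = j := by
    have := (hF.dist N e c hp hc q σ).1
    rwa [hq] at this
  have hoka : okT N e c s (.nat true u (.core (fa c σ q (2 * e - 1)))) :=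
    g2_okc hru (by rw [hda _ (by omega)]; omega)
  have hokm : okT N e c s (.nat true u (.core (fa c σ q (e - 1)))) :=
    g2_okc hru (by rw [hda _ (by omega)]; omega)
  have d1 : (TG N e c s).edist ⟨_, hPw.1⟩ ⟨_, hoka⟩ = ((e + e : ℕ) : ℕ∞) := by
    have h := hF.opp N e c s hp hc hs q σ (2 * e - 1) 1 ⟨_, hoka⟩ ⟨_, hPw.1⟩ (by rw [hq])
      (by rw [hq, hw]) (by omega) (by omega)
    have e1 : 2 * e - 1 + 1 = e + e := by omega
    rw [e1] at h
    exact SimpleGraph.edist_comm.trans h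
  have d2 : (TG N e c s).edist ⟨_, hPw.1⟩ ⟨_, hokm⟩ = (e : ℕ∞) := by
    have h := hF.opp N e c s hp hc hs q σ (e - 1) 1 ⟨_, hokm⟩ ⟨_, hPw.1⟩ (by rw [hq])
      (by rw [hq, hw]) (by omega) (by omega)
    have e1 : e - 1 + 1 = e := by omega
    rw [e1] at h
    exact SimpleGraph.edist_comm.trans h
  have d3 : (TG N e c s).edist ⟨_, hokm⟩ ⟨_, hoka⟩ = (e : ℕ∞) := by
    have h := hF.same N e c s hp hc hs q σ (e - 1) (2 * e - 1) ⟨_, hokm⟩ ⟨_, hoka⟩ (by rw [hq])
      (by rw [hq]) (by omega) (by omega)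
    have e1 : e - 1 - (2 * e - 1) + (2 * e - 1 - (e - 1)) = e := by omega
    rw [e1] at h
    exact h
  obtain ⟨t, p1, p2, p3, p4⟩ := hPw.2.2.1 ⟨_, hoka⟩
  have hgt : M.edist g t = ((e + e : ℕ) : ℕ∞) := (p3 (e + e) (by omega)).1 d1
  have hlt : lm t = {Kd.kap (c.lb (fa c σ q (2 * e - 1)))} := p1.symm
  have hWin : Win e (TG N e c s) (tL N e c s) ⟨_, hPw.1⟩ ⟨_, hoka⟩ e
      (Kd.kap (c.lb (fa c σ q (e - 1)))) := by
    refine ⟨e, le_rfl, le_rfl, d1, ⟨_, hokm⟩, d2, d3, ?_⟩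
    show _ ∈ gl N e c (.core _)
    rw [g2_glc]
    exact Finset.mem_singleton_self _
  obtain ⟨q0, -, -, hE, z, hz1, hz2, hz3⟩ := (p4 _ _).1 hWin
  have hq0 : q0 = e := by
    rw [hgt] at hE
    have h1 : e + e = e + q0 := by exact_mod_cast hE
    omega
  subst hq0
  obtain ⟨tz, hPE⟩ := hPw.2.2.2 z
  have htz : (TG N q0 c s).edist ⟨_, hPw.1⟩ tz = (q0 : ℕ∞) := (hPE.2.2.1 q0 (by omega)).2 hz1
  have hk : Kd.kap (c.lb (fa c σ q (q0 - 1))) ∈ tL N q0 c s tz := by rw [hPE.1]; exact hz3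
  rcases g2_cls hSee hD hx (x := ⟨_, hPw.1⟩) rfl (fun _ h => by cases h) (fun _ h => by cases h)
      (by rw [g2_lc, hduw]) htz (by rw [g2_lc, hduw]; omega) (Or.inl ⟨_, rfl⟩) hk with
      ⟨z4, h5, h6⟩ | ⟨q3, h5, a, h6⟩ | ⟨q4, j4, hj4, h5, h6⟩
  · have hlz : lm z = {Kd.kap (c.lb (fa c σ q (q0 - 1)))} := by
      rw [← hPE.1, h6]
      show tl N q0 c s tz.1 = _
      rw [h5]
      rfl
    exact g2_caseA hRg hSee hM hCls hF hx huw huw' hPw hPw' hgg hl1 hq h1 h2 hu' hz1 hz2 hlz hlt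
  · exact g2_caseB hRg hSee hM hCls hF hD hx huw hq hw hPw hPE h5 hz1 hz2 hlt
  · cases h6

end Pool.Agent.Helper12.LD
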