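import Pool.Agent.Helper2.LD.St4

/-!
# LD project, module Tok: parents and levels in the tree skeleton
-/

set_option autoImplicit false

namespace Pool.Agent.Helper12.LD

open Pool.Agent.Helper2.LD

variable {V Q Λ B FB : Type}

private theorem dist_anti {N e : ℕ} {c : Core V Q Λ B FB} (hc : CoreAx N e c) (q : Q) :
    c.G.dist (c.ow q) (c.ow ((c.nx^[2 * e]) q)) = 2 * e := by
  have h := hc.iso q (2 * e) le_rfl
  rw [SimpleGraph.dist, h]
  rfl

private theorem lev_core {K : Type} (N : ℕ) (c : Core V Q Λ B FB) (u z : V) :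
    lev N c u (GH.core z : GH V Q K) = c.G.dist u z := rfl

private theorem lev_gho {K : Type} (N : ℕ) (c : Core V Q Λ B FB) (u : V) (q : Q) (j : ℕ) :
    lev N c u (GH.gho q j : GH V Q K) = c.G.dist u (c.ow q) + j := rfl

private theorem lev_tru {K : Type} (N : ℕ) (c : Core V Q Λ B FB) (u x : V) (j : ℕ) :
    lev N c u (GH.tru x j : GH V Q K) = c.G.dist u x + j := rfl

private theorem lev_fan {K : Type} (N : ℕ) (c : Core V Q Λ B FB) (u x : V) (l : Finset K) :
    lev N c u (GH.fan x l : GH V Q K) = c.G.dist u x + 2 * N := rfl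

private theorem pb_core {K : Type} {N e : ℕ} {c : Core V Q Λ B FB} {s : Ch V Q}
    (hc : CoreAx N e c) (hs : ChAx N c s) (b : Bool) (u z : V) (hz : u ≠ z) :
    (∃ q, c.ow q = u ∧ c.ow ((c.nx^[2 * e]) q) = z ∧ c.G.dist u z = 2 * e ∧
      pb (K := K) N e c s b u (.core z) = .gho q (2 * e - 1)) ∨
    (pb (K := K) N e c s b u (.core z) = .core (s.pr u z) ∧
      c.G.dist u (s.pr u z) + 1 = c.G.dist u z) := by
  by_cases h : b = true ∧ ∃ q, c.ow q = u ∧ c.ow ((c.nx^[2 * e]) q) = z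
  · left
    have h1 := h.2.choose_spec
    refine ⟨h.2.choose, h1.1, h1.2, ?_, ?_⟩
    · have h2 := dist_anti hc h.2.choose
      rw [h1.1, h1.2] at h2
      exact h2
    · exact dif_pos h
  · right
    refine ⟨?_, (hs.pr u z hz).2⟩
    exact dif_neg h

/-- the parent of a natural hub -/
private theorem pb_ok {N e : ℕ} {c : Core V Q Λ B FB} {s : Ch V Q} (hp : Par N e)
    (hc : CoreAx N e c) (hs : ChAx N c s) (b : Bool) (u : V) (h : GH V Q (Kd N Λ B FB))
    (hok : okG N e c h) (h0 : lev N c u h ≠ 0) :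
    okG N e c (pb N e c s b u h) ∧ lev N c u (pb N e c s b u h) + 1 = lev N c u h := by
  obtain ⟨hp1, hp2⟩ := hp
  cases h with
  | core z =>
    have hz : u ≠ z := by
      rintro rfl
      rw [lev_core, SimpleGraph.dist_self] at h0
      exact h0 rfl
    rcases pb_core (K := Kd N Λ B FB) hc hs b u z hz with ⟨q, h1, h2, h3, h4⟩ | ⟨h1, h2⟩
    · rw [h4, lev_gho, lev_core, h1, h3, SimpleGraph.dist_self]
      refine ⟨⟨?_, ?_⟩, ?_⟩ <;> omega
    · rw [h1, lev_core, lev_core]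
      exact ⟨trivial, h2⟩
  | gho q j =>
    obtain ⟨hj1, hj2⟩ : 1 ≤ j ∧ j ≤ 2 * N := hok
    have e1 : pb N e c s b u (GH.gho q j : GH V Q (Kd N Λ B FB)) =
      if j ≤ 1 then .core (c.ow q) else .gho q (j - 1) := rfl
    rw [e1]
    split_ifs with hj
    · rw [lev_core, lev_gho]
      refine ⟨trivial, ?_⟩
      omega
    · rw [lev_gho, lev_gho]
      refine ⟨⟨?_, ?_⟩, ?_⟩ <;> omega
  | tru x j =>
    obtain ⟨hj1, hj2⟩ : 1 ≤ j ∧ j < 2 * N := hok
    have e1 : pb N e c s b u (GH.tru x j : GH V Q (Kd N Λ B FB)) =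
      if j ≤ 1 then .core x else .tru x (j - 1) := rfl
    rw [e1]
    split_ifs with hj
    · rw [lev_core, lev_tru]
      refine ⟨trivial, ?_⟩
      omega
    · rw [lev_tru, lev_tru]
      refine ⟨⟨?_, ?_⟩, ?_⟩ <;> omega
  | fan x l =>
    have e1 : pb N e c s b u (GH.fan x l : GH V Q (Kd N Λ B FB)) = .tru x (2 * N - 1) := rfl
    rw [e1, lev_tru, lev_fan]
    refine ⟨⟨?_, ?_⟩, ?_⟩ <;> omega

private theorem lev_zero {N e : ℕ} {c : Core V Q Λ B FB} (hp : Par N e)
    (hc : CoreAx N e c) (u : V) (h : GH V Q (Kd N Λ B FB)) (hok : okG N e c h)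
    (h0 : lev N c u h = 0) : h = .core u := by
  obtain ⟨hp1, hp2⟩ := hp
  cases h with
  | core z =>
    rw [lev_core, hc.conn.dist_eq_zero_iff] at h0
    rw [h0]
  | gho q j =>
    obtain ⟨hj1, hj2⟩ : 1 ≤ j ∧ j ≤ 2 * N := hok
    rw [lev_gho] at h0
    omega
  | tru x j =>
    obtain ⟨hj1, hj2⟩ : 1 ≤ j ∧ j < 2 * N := hok
    rw [lev_tru] at h0
    omega
  | fan x l =>
    rw [lev_fan] at h0
    omega

private theorem lev_core_self {K : Type} (N : ℕ) (c : Core V Q Λ B FB) (u : V) :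
    lev N c u (GH.core u : GH V Q K) = 0 := by
  rw [lev_core, SimpleGraph.dist_self]

private theorem t_ok (N e : ℕ) (c : Core V Q Λ B FB) (s : Ch V Q) (hp : Par N e)
    (hc : CoreAx N e c) (hs : ChAx N c s) (x : TH V Q (Kd N Λ B FB)) (hx : okT N e c s x)
    (h0 : tlev N c x ≠ 0) :
    okT N e c s (tpar N e c s x) ∧ tlev N c (tpar N e c s x) + 1 = tlev N c x ∧
      pc (tpar N e c s x) = pc x := by
  have hp' := hp
  obtain ⟨hp1, hp2⟩ := hp
  cases x with
  | nat b u h =>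
    obtain ⟨h1, h2, h3⟩ : s.rp u = u ∧ okG N e c h ∧
      (lev N c u h ≤ dep N b ∨ (b = false ∧ ∃ q, c.ow q = u ∧ h = .gho q (2 * N))) := hx
    have h0' : lev N c u h ≠ 0 := h0
    obtain ⟨h4, h5⟩ := pb_ok hp' hc hs b u h h2 h0'
    refine ⟨⟨h1, h4, Or.inl ?_⟩, h5, rfl⟩
    rcases h3 with h3 | ⟨rfl, q, hq, rfl⟩
    · omega
    · rw [lev_gho, hq, SimpleGraph.dist_self] at h5
      have e1 : dep N false = 2 * N - 1 := rfl
      rw [e1]
      omega
  | cap b u h =>
    obtain ⟨h1, h2, h3, -, -⟩ : s.rp u = u ∧ okG N e c h ∧ lev N c u h = dep N b ∧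
      (b = true → ∀ l, h ≠ .fan u l) ∧ (b = false → ∀ q j, c.ow q = u → h ≠ .gho q j) := hx
    exact ⟨⟨h1, h2, Or.inl h3.le⟩, rfl, rfl⟩
  | pth b u j =>
    obtain ⟨h1, h2, h3⟩ : s.rp u = u ∧ 1 ≤ j ∧ j ≤ 2 * N := hx
    have e1 : tpar N e c s (TH.pth b u j : TH V Q (Kd N Λ B FB)) =
      if j = 2 * N then .rt else .pth b u (j + 1) := rfl
    rw [e1]
    have e2 : tlev N c (TH.pth b u j : TH V Q (Kd N Λ B FB)) = 2 * N + 1 - j := rfl
    rw [e2]
    split_ifs with hj
    · refine ⟨trivial, ?_, rfl⟩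
      have e3 : tlev N c (TH.rt : TH V Q (Kd N Λ B FB)) = 0 := rfl
      rw [e3]
      omega
    · refine ⟨⟨h1, by omega, by omega⟩, ?_, rfl⟩
      have e3 : tlev N c (TH.pth b u (j + 1) : TH V Q (Kd N Λ B FB)) = 2 * N + 1 - (j + 1) := rfl
      rw [e3]
      omega
  | rt => exact absurd rfl h0

private theorem t_zero (N e : ℕ) (c : Core V Q Λ B FB) (s : Ch V Q) (hp : Par N e)
    (hc : CoreAx N e c) (x : TH V Q (Kd N Λ B FB)) (hx : okT N e c s x)
    (h0 : tlev N c x = 0) : x = .rt ∨ ∃ b u, s.rp u = u ∧ x = .nat b u (.core u) := by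
  cases x with
  | nat b u h =>
    right
    have h1 : s.rp u = u := hx.1
    have h2 : okG N e c h := hx.2.1
    rw [lev_zero hp hc u h h2 h0]
    exact ⟨b, u, h1, rfl⟩
  | cap b u h =>
    exfalso
    have : lev N c u h + 1 = 0 := h0
    omega
  | pth b u j =>
    exfalso
    obtain ⟨h1, h2, h3⟩ : s.rp u = u ∧ 1 ≤ j ∧ j ≤ 2 * N := hx
    have : 2 * N + 1 - j = 0 := h0
    omega
  | rt => exact Or.inl rfl

private theorem t_okc (N e : ℕ) (c : Core V Q Λ B FB) (s : Ch V Q) (hp : Par N e)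
    (hs : ChAx N c s) (b : Bool) (u : V) (hu : s.rp u = u) :
    okT (Λ := Λ) (B := B) (FB := FB) N e c s (.cap b u (cc N s b u)) := by
  obtain ⟨hp1, hp2⟩ := hp
  cases b with
  | false =>
    refine ⟨hu, ?_, ?_, fun h => absurd h (by decide), fun _ q j _ => ?_⟩
    · show 1 ≤ 2 * N - 1 ∧ 2 * N - 1 < 2 * N
      omega
    · show c.G.dist u u + (2 * N - 1) = 2 * N - 1
      rw [SimpleGraph.dist_self]
      omega
    · intro h
      have h' : (GH.tru u (2 * N - 1) : GH V Q (Kd N Λ B FB)) = .gho q j := h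
      cases h'
  | true =>
    refine ⟨hu, ?_, ?_, fun _ l => ?_, fun h => absurd h (by decide)⟩
    · show 1 ≤ 2 * N ∧ 2 * N ≤ 2 * N
      omega
    · show c.G.dist u (c.ow (s.q0 u)) + 2 * N = 2 * N
      rw [hs.q0 u, SimpleGraph.dist_self]
      omega
    · intro h
      have h' : (GH.gho (s.q0 u) (2 * N) : GH V Q (Kd N Λ B FB)) = .fan u l := h
      cases h'

/-- oriented edges -/
private theorem te_imp (N e : ℕ) (c : Core V Q Λ B FB) (s : Ch V Q) (hp : Par N e)
    (hc : CoreAx N e c) (x y : TH V Q (Kd N Λ B FB)) (hx : okT N e c s x) (hy : okT N e c s y)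
    (h : TE N e c s x y) :
    (tlev N c x ≠ 0 ∧ y = tpar N e c s x) ∨ (tlev N c y ≠ 0 ∧ x = tpar N e c s y) ∨
      Bdg N s x y ∨ Bdg N s y x := by
  cases x with
  | nat b u g =>
    cases y with
    | nat b' u' g' =>
      obtain ⟨rfl, rfl, h3, rfl⟩ : b = b' ∧ u = u' ∧ g ≠ .core u ∧ g' = pb N e c s b u g := h
      left
      refine ⟨fun h0 => h3 ?_, rfl⟩
      exact lev_zero hp hc u g hx.2.1 h0
    | cap b' u' g' => exact h.elim
    | pth b' u' j' => exact h.elim
    | rt => exact h.elim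
  | cap b u g =>
    cases y with
    | nat b' u' g' =>
      obtain ⟨rfl, rfl, rfl⟩ : b = b' ∧ u = u' ∧ g = g' := h
      left
      exact ⟨Nat.succ_ne_zero _, rfl⟩
    | cap b' u' g' => exact h.elim
    | pth b' u' j' => exact h.elim
    | rt => exact h.elim
  | pth b u j =>
    cases y with
    | nat b' u' g' => exact h.elim
    | cap b' u' g' =>
      obtain ⟨rfl, rfl, rfl, rfl⟩ : b = b' ∧ u = u' ∧ j = 1 ∧ g' = cc N s b u := h
      exact Or.inr (Or.inr (Or.inr ⟨b, u, rfl, rfl⟩))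
    | pth b' u' j' =>
      obtain ⟨rfl, rfl, rfl⟩ : b = b' ∧ u = u' ∧ j = j' + 1 := h
      obtain ⟨h1, h2, h3⟩ : s.rp u = u ∧ 1 ≤ j' + 1 ∧ j' + 1 ≤ 2 * N := hx
      refine Or.inr (Or.inl ⟨?_, ?_⟩)
      · show 2 * N + 1 - j' ≠ 0
        omega
      · have e1 : tpar N e c s (TH.pth b u j' : TH V Q (Kd N Λ B FB)) =
          if j' = 2 * N then .rt else .pth b u (j' + 1) := rfl
        rw [e1, if_neg (by omega)]
    | rt => exact h.elim
  | rt =>
    cases y with
    | nat b' u' g' => exact h.elim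
    | cap b' u' g' => exact h.elim
    | pth b' u' j' =>
      have h' : j' = 2 * N := h
      refine Or.inr (Or.inl ⟨?_, ?_⟩)
      · show 2 * N + 1 - j' ≠ 0
        omega
      · have e1 : tpar N e c s (TH.pth b' u' j' : TH V Q (Kd N Λ B FB)) =
          if j' = 2 * N then .rt else .pth b' u' (j' + 1) := rfl
        rw [e1, if_pos h']
    | rt => exact h.elim

private theorem te_of_par (N e : ℕ) (c : Core V Q Λ B FB) (s : Ch V Q)
    (x : TH V Q (Kd N Λ B FB)) (h0 : tlev N c x ≠ 0) :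
    TE N e c s x (tpar N e c s x) ∨ TE N e c s (tpar N e c s x) x := by
  cases x with
  | nat b u h =>
    left
    refine ⟨rfl, rfl, ?_, rfl⟩
    rintro rfl
    exact h0 (lev_core_self N c u)
  | cap b u h => exact Or.inl ⟨rfl, rfl, rfl⟩
  | pth b u j =>
    right
    have e1 : tpar N e c s (TH.pth b u j : TH V Q (Kd N Λ B FB)) =
      if j = 2 * N then .rt else .pth b u (j + 1) := rfl
    rw [e1]
    split_ifs with hj
    · exact hj
    · exact ⟨rfl, rfl, rfl⟩
  | rt => exact absurd rfl h0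

private theorem te_of_bdg (N e : ℕ) (c : Core V Q Λ B FB) (s : Ch V Q)
    (x y : TH V Q (Kd N Λ B FB)) (h : Bdg N s x y) : x ≠ y ∧ TE N e c s y x := by
  obtain ⟨b, u, rfl, rfl⟩ := h
  exact ⟨by rintro ⟨⟩, rfl, rfl, rfl, rfl⟩

private theorem t_adj (N e : ℕ) (c : Core V Q Λ B FB) (s : Ch V Q) (hp : Par N e)
    (hc : CoreAx N e c) (hs : ChAx N c s) (x y : TV N e c s) : (TG N e c s).Adj x y ↔
      (tlev N c x.1 ≠ 0 ∧ y.1 = tpar N e c s x.1) ∨ (tlev N c y.1 ≠ 0 ∧ x.1 = tpar N e c s y.1) ∨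
        Bdg N s x.1 y.1 ∨ Bdg N s y.1 x.1 := by
  constructor
  · rintro ⟨-, h | h⟩
    · exact te_imp N e c s hp hc x.1 y.1 x.2 y.2 h
    · rcases te_imp N e c s hp hc y.1 x.1 y.2 x.2 h with h1 | h1 | h1 | h1
      · exact Or.inr (Or.inl h1)
      · exact Or.inl h1
      · exact Or.inr (Or.inr (Or.inr h1))
      · exact Or.inr (Or.inr (Or.inl h1))
  · have key : ∀ x y : TV N e c s, tlev N c x.1 ≠ 0 ∧ y.1 = tpar N e c s x.1 →
        (TG N e c s).Adj x y := by
      rintro x y ⟨h0, h1⟩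
      refine ⟨?_, ?_⟩
      · rintro rfl
        have h2 := (t_ok N e c s hp hc hs x.1 x.2 h0).2.1
        rw [← h1] at h2
        omega
      · rw [h1]
        exact te_of_par N e c s x.1 h0
    have key2 : ∀ x y : TV N e c s, Bdg N s x.1 y.1 → (TG N e c s).Adj x y := by
      intro x y h
      obtain ⟨h1, h2⟩ := te_of_bdg N e c s x.1 y.1 h
      exact ⟨fun h3 => h1 (congrArg Subtype.val h3), Or.inr h2⟩
    rintro (h | h | h | h)
    · exact key x y h
    · exact (key y x h).symm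
    · exact key2 x y h
    · exact (key2 y x h).symm

theorem pTok : StTok where
  ok := fun N e c s hp hc hs x hx h0 => t_ok N e c s hp hc hs x hx h0
  zero := fun N e c s hp hc _ x hx h0 => t_zero N e c s hp hc x hx h0
  okc := fun N e c s hp _ hs b u hu => t_okc N e c s hp hs b u hu
  adj := fun N e c s hp hc hs x y => t_adj N e c s hp hc hs x y

end Pool.Agent.Helper12.LD
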